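import Pool.Agent.Helper96.SE.Stmts2
import Pool.Agent.Helper68.LP.Short

set_option autoImplicit false

namespace Pool.Agent.Helper96.SE

open Pool.Agent.Helper68.LP

theorem st_INJ : ST_INJ := by
  intro n L T J w P hP hJ hTL hw
  have hL0 : (L : ℤ) ≠ 0 := by
    have : 0 < L := by omega
    exact_mod_cast this.ne'
  have hLp : 0 < (L : ℤ) := by
    have : 0 < L := by omega
    exact_mod_cast this
  have hsc : Function.Injective (sc L) := by
    rintro ⟨a, b⟩ ⟨c, d⟩ h
    unfold sc at h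
    simp only [Prod.mk.injEq, mul_eq_mul_left_iff, hL0, or_false] at h
    rw [h.1, h.2]
  have hne : ∀ (i : Fin n) (j : Fin T),
      sc L (P i) ≠ near (sc L (P (w ((j : ℕ) % J)))) ((j : ℕ) / J) := by
    intro i j h
    unfold sc near at h
    simp only [Prod.mk.injEq] at h
    have h1 : (L : ℤ) * ((P i).1 - (P (w ((j : ℕ) % J))).1) = (((j : ℕ) / J : ℕ) : ℤ) + 1 := by
      linarith [h.1]
    have h2 : (L : ℤ) ∣ (((j : ℕ) / J : ℕ) : ℤ) + 1 := ⟨_, h1.symm⟩
    have h3 := Int.le_of_dvd (by positivity) h2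
    have h4 : (j : ℕ) / J ≤ j := Nat.div_le_self _ _
    have := j.2
    omega
  unfold spread
  intro x y
  refine Fin.addCases (fun i => ?_) (fun j => ?_) x <;>
    refine Fin.addCases (fun i' => ?_) (fun j' => ?_) y
  · intro h
    simp only [Fin.append_left] at h
    rw [hP (hsc h)]
  · intro h
    simp only [Fin.append_left, Fin.append_right] at h
    exact (hne i j' h).elim
  · intro h
    simp only [Fin.append_left, Fin.append_right] at h
    exact (hne i' j h.symm).elim
  · intro h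
    simp only [Fin.append_right] at h
    unfold near sc at h
    simp only [Prod.mk.injEq] at h
    obtain ⟨h1, h2⟩ := h
    have hy : (P (w ((j : ℕ) % J))).2 = (P (w ((j' : ℕ) % J))).2 := mul_left_cancel₀ hL0 h2
    have hb1 : (j : ℕ) / J ≤ j := Nat.div_le_self _ _
    have hb2 : (j' : ℕ) / J ≤ j' := Nat.div_le_self _ _
    have hj := j.2
    have hj' := j'.2
    have hx : (P (w ((j : ℕ) % J))).1 = (P (w ((j' : ℕ) % J))).1 := by
      have h3 : (L : ℤ) * ((P (w ((j : ℕ) % J))).1 - (P (w ((j' : ℕ) % J))).1) =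
          (((j' : ℕ) / J : ℕ) : ℤ) - (((j : ℕ) / J : ℕ) : ℤ) := by linarith
      have h4 : (L : ℤ) ∣ (((j' : ℕ) / J : ℕ) : ℤ) - (((j : ℕ) / J : ℕ) : ℤ) := ⟨_, h3.symm⟩
      have h5 : (((j' : ℕ) / J : ℕ) : ℤ) - (((j : ℕ) / J : ℕ) : ℤ) = 0 := by
        apply Int.eq_zero_of_abs_lt_dvd h4
        clear h3 h4 h1
        generalize (j : ℕ) / J = a at *
        generalize (j' : ℕ) / J = b at *
        rw [abs_lt]
        constructor <;> omega
      rw [h5] at h3
      rcases mul_eq_zero.1 h3 with h6 | h6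
      · exact absurd h6 hL0
      · linarith
    have hq : (j : ℕ) / J = (j' : ℕ) / J := by
      rw [hx] at h1
      have : (((j : ℕ) / J : ℕ) : ℤ) = (((j' : ℕ) / J : ℕ) : ℤ) := by linarith
      exact_mod_cast this
    have hm : (j : ℕ) % J = (j' : ℕ) % J := by
      apply hw _ _ (Nat.mod_lt _ hJ) (Nat.mod_lt _ hJ)
      apply hP
      exact Prod.ext hx hy
    have hjj : j = j' := by
      apply Fin.ext
      rw [← Nat.div_add_mod (j : ℕ) J, ← Nat.div_add_mod (j' : ℕ) J, hq, hm]
    rw [hjj]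

end Pool.Agent.Helper96.SE
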