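import Pool.Agent.Helper96.SE.Stmts2
import Pool.Agent.Helper68.LP.Short

set_option autoImplicit false

namespace Pool.Agent.Helper96.SE

open Pool.Agent.Helper31.BC (dst tourLen Placement Pair Ineq Refutes PCl chs chf xv inn sel col vr)
open Pool.Agent.Helper68.LP

/-- removing the additional cities -/
theorem rmv_exists {n : ℕ} (S t J : ℕ) (w : ℕ → Fin n) (P : Fin n → ℤ × ℤ)
    (σ' : Equiv.Perm (Fin (n + t))) :
    ∃ σ : Equiv.Perm (Fin n), S * tlen P σ ≤ tlen (spread S t J w P) σ' := by
  set T' : List (Fin (n + t)) := List.ofFn fun i => σ' i with hT'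
  have hT'n : T'.Nodup := List.nodup_ofFn.mpr σ'.injective
  have hmem' : ∀ x, x ∈ T' := by
    intro x
    rw [hT', List.mem_ofFn]
    exact ⟨σ'.symm x, by simp⟩
  -- the labels below `n`
  obtain ⟨T, hT⟩ : ∃ T : List (Fin n), T.map (Fin.castAdd t) = T'.filter fun x => decide (x.1 < n) := by
    have : ∀ l : List (Fin (n + t)), ∃ T : List (Fin n),
        T.map (Fin.castAdd t) = l.filter fun x => decide (x.1 < n) := by
      intro l
      induction l with
      | nil => exact ⟨[], rfl⟩
      | cons x l ih =>
        obtain ⟨T, hT⟩ := ih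
        by_cases hx : x.1 < n
        · exact ⟨⟨x.1, hx⟩ :: T, by
            rw [List.filter_cons_of_pos (by simpa using hx), List.map_cons, hT]
            rfl⟩
        · exact ⟨T, by rw [List.filter_cons_of_neg (by simpa using hx), hT]⟩
    exact this T'
  have hTn : T.Nodup := by
    rw [← List.nodup_map_iff (Fin.castAdd_injective n t), hT]
    exact hT'n.filter _
  have hmem : ∀ x, x ∈ T := by
    intro x
    have h1 : Fin.castAdd t x ∈ T'.filter fun x => decide (x.1 < n) := by
      rw [List.mem_filter]
      exact ⟨hmem' _, by simp⟩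
    rw [← hT, List.mem_map] at h1
    obtain ⟨y, hy, hy2⟩ := h1
    rwa [Fin.castAdd_injective _ _ hy2] at hy
  have hlen : T.length = n := by
    have h1 : T.toFinset = Finset.univ := by
      ext x; simp [hmem x]
    rw [← List.toFinset_card_of_nodup hTn, h1, Finset.card_univ, Fintype.card_fin]
  obtain ⟨σ, hσ⟩ := perm_of_list T hTn hlen
  refine ⟨σ, ?_⟩
  have e0 : List.ofFn (fun i => spread S t J w P (σ' i)) = T'.map (spread S t J w P) := by
    rw [ofFn_comp]
  have e00 : List.ofFn (fun i => P (σ i)) = T.map P := by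
    rw [ofFn_comp, hσ]
  rw [tlen_eq_clen, e00, tlen_eq_clen, e0, ← clen_sc]
  have e : (T.map P).map (sc S) =
      (T'.filter fun x => decide (x.1 < n)).map (spread S t J w P) := by
    rw [← hT, List.map_map, List.map_map]
    congr 1
    funext j
    unfold spread
    simp
  rw [e]
  exact clen_sublist (List.filter_sublist.map _)

theorem st_RMV : ST_RMV := by
  intro n L T J w P σ'
  exact rmv_exists L T J w P σ'

end Pool.Agent.Helper96.SE
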